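import Pool.Agent.J6H77.BC.Rs

/-!
# Consistency of the theory
-/

set_option autoImplicit false

namespace Pool.Agent.J6H77.BC

open Pool.Agent.TH672 (Fm Str upd varStr num digits LogK ReplK Sw Pv)
open Pool.Agent.TH636.BC (Fml Step IsProof str strs Proves code blk inst robinson Arith PrRel
  Numerates con conAt Cx lt col Ef Cf TE hd bs tl appn St Ok Agr Eqs Erel Crel AddS MulS SuccS Vlt)
open Pool.Agent.TH197.J1545 (D DM Dop strs_cons sat_robinson)
open Pool.Agent.J6H49.BC

/-! ### the variables of a formula are below the length of its string -/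

theorem len_varStr (x : ℕ) : (varStr x).length = x + 1 := by
  simp [varStr]

theorem vlt_mono {m n : ℕ} (h : m ≤ n) : ∀ {φ : Fml}, Vlt m φ → Vlt n φ := by
  intro φ
  induction φ with
  | bot => intro _; trivial
  | eq x y => intro h'; exact ⟨h'.1.trans_le h, h'.2.trans_le h⟩
  | zero x => intro h'; exact lt_of_lt_of_le h' h
  | succ x y => intro h'; exact ⟨h'.1.trans_le h, h'.2.trans_le h⟩
  | add x y z => intro h'; exact ⟨h'.1.trans_le h, h'.2.1.trans_le h, h'.2.2.trans_le h⟩
  | mul x y z => intro h'; exact ⟨h'.1.trans_le h, h'.2.1.trans_le h, h'.2.2.trans_le h⟩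
  | op i a b c d =>
    intro h'
    exact ⟨h'.1.trans_le h, h'.2.1.trans_le h, h'.2.2.1.trans_le h, h'.2.2.2.trans_le h⟩
  | imp φ ψ ih ih' => intro h'; exact ⟨ih h'.1, ih' h'.2⟩
  | all x φ ih => intro h'; exact ⟨h'.1.trans_le h, ih h'.2⟩

theorem vlt_len : ∀ φ : Fml, Vlt (str φ).length φ := by
  intro φ
  induction φ with
  | bot => trivial
  | eq x y => simp only [Vlt, str, List.length_append, len_varStr, List.length_cons,
      List.length_nil]; omega
  | zero x => simp only [Vlt, str, List.length_append, len_varStr, List.length_cons,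
      List.length_nil]; omega
  | succ x y => simp only [Vlt, str, List.length_append, len_varStr, List.length_cons,
      List.length_nil]; omega
  | add x y z => simp only [Vlt, str, List.length_append, len_varStr, List.length_cons,
      List.length_nil]; omega
  | mul x y z => simp only [Vlt, str, List.length_append, len_varStr, List.length_cons,
      List.length_nil]; omega
  | op i a b c d => simp only [Vlt, str, List.length_append, len_varStr, List.length_cons,
      List.length_nil]; omega
  | imp φ ψ ih ih' =>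
    refine ⟨vlt_mono ?_ ih, vlt_mono ?_ ih'⟩
    · simp only [str, List.length_append, List.length_cons, List.length_nil]; omega
    · simp only [str, List.length_append, List.length_cons, List.length_nil]; omega
  | all x φ ih =>
    refine ⟨?_, vlt_mono ?_ ih⟩
    · simp only [str, List.length_append, len_varStr, List.length_cons, List.length_nil]; omega
    · simp only [str, List.length_append, len_varStr, List.length_cons, List.length_nil]; omega

theorem len_mem {φ : Fml} : ∀ {π : List Fml}, φ ∈ π → (str φ).length ≤ (strs π).length := by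
  intro π
  induction π with
  | nil => intro h; simp at h
  | cons ψ π ih =>
    intro h
    rw [strs_cons, List.length_append]
    rcases List.mem_cons.1 h with rfl | h
    · omega
    · have := ih h
      omega

/-! ### a valid state -/

theorem ok_zero (m : ℕ) : Ok m ⟨fun _ => .inl 0, fun _ _ => 0⟩ where
  norm := fun _ _ _ _ _ => rfl
  refl := fun _ _ => rfl
  symm := fun _ _ _ _ => rfl
  le := fun _ _ _ _ => Nat.zero_le _
  val := fun _ _ _ _ h => by cases h
  cong := fun _ _ _ _ _ _ h => by cases h
  tri := fun _ _ _ _ _ _ _ _ => rfl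

/-! ### the axioms without the symbols -/

theorem lw_robinson : ∀ φ ∈ robinson, Lw φ := by
  intro φ hφ
  simp only [robinson, List.mem_cons, List.not_mem_nil, or_false] at hφ
  rcases hφ with rfl | rfl | rfl | rfl | rfl | rfl | rfl | rfl | rfl | rfl | rfl | rfl | rfl | rfl | rfl <;>
  simp [Lw, Fm.ex, Fm.or, Fm.neg]

theorem lw_appn {σ : List Bool} {ψ : Fml} (h : Lw ψ) : Lw (appn σ ψ) :=
  lw_inst (lw_inst ⟨trivial, trivial, h⟩)

theorem lw_TE : ∀ φ ∈ TE, Lw φ := by
  have h4 : ∀ x w, Lw (Ef x w) := fun x w => le_refl 4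
  have h5 : ∀ x z w, Lw (Cf x z w) := fun x z w => by show 4 ≤ 5; omega
  intro φ hφ
  simp only [TE, List.mem_cons, List.not_mem_nil, or_false] at hφ
  rcases hφ with rfl | rfl | rfl | rfl | rfl
  · exact ⟨trivial, lw_inst (h4 _ _)⟩
  · exact ⟨h4 _ _, trivial, lw_appn (h4 _ _)⟩
  · exact ⟨h4 _ _, trivial, lw_appn (h5 _ _ _)⟩
  · exact ⟨h5 _ _ _, trivial, trivial, trivial, trivial, h5 _ _ _⟩
  · exact ⟨h5 _ _ _, trivial, trivial, trivial, trivial, trivial, trivial, h5 _ _ _⟩

theorem tr1_of_sat {m : ℕ} {φ : Fml} (h : TransferT) (h2 : ExRealzT) (hv : Vlt m φ) (hl : Lw φ)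
    (hs : ∀ v : ℕ → DM, Fm.Sat D φ v) : Tr1 m φ := by
  intro s hs'
  obtain ⟨v, hv'⟩ := h2 m s hs'
  exact (h m φ hv hl s v hs' hv').2 (hs v)

attribute [local irreducible] rn code in
theorem cons (h0 : ExtT) (h1 : SoundT) (h : TransferT) (h2 : ExRealzT) (h3 : TET) : ConsT := by
  intro P hP m
  induction m using Nat.strong_induction_on with
  | _ m ih =>
    rintro ⟨π, hπ, hlen⟩
    have hax : ∀ φ ∈ RA P, Vlt m φ → Tr1 m φ := by
      intro φ hφ hv
      rcases List.mem_cons.1 hφ with e | hφ
      · rw [e] at hv ⊢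
        exact rsT h h2 P hP m ih hv
      · rcases List.mem_append.1 hφ with hφ | hφ
        · rcases List.mem_append.1 hφ with hφ | hφ
          · exact tr1_of_sat h h2 hv (lw_robinson φ hφ) (sat_robinson φ hφ)
          · exact u0 h0 m φ hφ hv
        · exact tr1_of_sat h h2 hv (lw_TE φ hφ) (h3 φ hφ)
    have := h1 m (RA P) (Fm.bot :: π) hπ
      (fun φ hφ => vlt_mono ((len_mem hφ).trans hlen) (vlt_len φ)) hax Fm.bot
      (List.mem_cons_self ..) _ (ok_zero m)
    exact this

end Pool.Agent.J6H77.BC
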