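import Pool.Agent.J6H77.BC.RrL

/-!
# Module D3b, third part: the instance
-/

set_option autoImplicit false

namespace Pool.Agent.J6H77.BC

open Pool.Agent.TH672 (Fm LogK)
open Pool.Agent.TH636.BC (Fml blk inst lt col Cx)
open Pool.Agent.J6H49.BC

theorem le_cube {C a n : ℕ} (h : a ≤ C) : a ≤ C * (n + 1) ^ 3 :=
  h.trans (Nat.le_mul_of_pos_right _ (by positivity))

theorem lin_le_cube {C a b n : ℕ} (h : a + b ≤ C) : a + b * (n + 1) ≤ C * (n + 1) ^ 3 := by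
  have h1 : n + 1 ≤ (n + 1) ^ 3 := by
    calc n + 1 = (n + 1) ^ 1 := (pow_one _).symm
      _ ≤ (n + 1) ^ 3 := Nat.pow_le_pow_right (by omega) (by omega)
  have h2 : 1 ≤ (n + 1) ^ 3 := Nat.one_le_pow _ _ (by omega)
  calc a + b * (n + 1) ≤ a * (n + 1) ^ 3 + b * (n + 1) ^ 3 := by nlinarith
    _ = (a + b) * (n + 1) ^ 3 := by ring
    _ ≤ C * (n + 1) ^ 3 := Nat.mul_le_mul_right _ h

theorem d3b3 : D3b3T := by
  intro Y c hY hc hb
  refine ⟨sz Y + 200, fun C hC n G hG => ?_⟩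
  have hl : 1 ≤ C * (n + 1) := by nlinarith
  have hR := sz_Rr_le Y n
  have hbb : BB (c + 4) (Rr Y n) := (bb_Rr hb n).mono (by omega)
  have hs : sz Y + 160 + 40 * (n + 1) ≤ C * (n + 1) ^ 3 := lin_le_cube (by omega)
  have hN : 7 ≤ C * (n + 1) ^ 3 := le_cube (by omega)
  have wz : W (c + 4) (C * (n + 1) ^ 3) (.zero 0) := ⟨bb_zero _ _, by rw [sz_zero]; omega⟩
  have we : W (c + 4) (C * (n + 1) ^ 3) (.eq 0 0) := ⟨bb_eq _ _ _, by rw [sz_eq]; omega⟩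
  have hΔ : ∀ g ∈ ([.zero 0] : List Fml), W (c + 4) (C * (n + 1) ^ 3) g := by
    intro g hg
    rw [List.mem_singleton] at hg
    rw [hg]; exact wz
  have hΔl : ([.zero 0] : List Fml).length ≤ C * (n + 1) := hl
  have w1 : W (c + 4) (C * (n + 1) ^ 3) (imps [.zero 0, .eq 0 0] (Rr Y n)) :=
    ⟨(bb_zero _ _).imp ((bb_eq _ _ _).imp hbb), by
      simp only [imps_cons, imps_nil, sz_imp, sz_zero, sz_eq]; omega⟩
  have w2 : W (c + 4) (C * (n + 1) ^ 3) (.imp (.zero 0) (Rr Y n)) :=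
    ⟨(bb_zero _ _).imp hbb, by simp only [sz_imp, sz_zero]; omega⟩
  have w3 : W (c + 4) (C * (n + 1) ^ 3) (.all 0 (.imp (.zero 0) (Rr Y n))) :=
    ⟨(BB.all' (.imp (.zero _ _ _) (cx_Rr hb n)) 0).mono (by omega), by
      simp only [sz_all, sz_imp, sz_zero]; omega⟩
  have h1 : ND WB (c + 4) (C * (n + 1) ^ 3) (C * (n + 1)) G 1 [.zero 0]
      (imps [.zero 0, .eq 0 0] (Rr Y n)) := .thm hΔl hΔ w1 (.inl hG)
  have h2 : ND WB (c + 4) (C * (n + 1) ^ 3) (C * (n + 1)) G 1 [.zero 0] (.zero 0) :=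
    .hyp hΔl hΔ (List.mem_singleton.2 rfl)
  have h4 : ND WB (c + 4) (C * (n + 1) ^ 3) (C * (n + 1)) G 1 [.zero 0] (.eq 0 0) :=
    .thm hΔl hΔ we (.inr (.inr (.refl 0)))
  have h5 : ND WB (c + 4) (C * (n + 1) ^ 3) (C * (n + 1)) G 5 [.zero 0] (Rr Y n) :=
    (h1.mp h2).mp h4
  have h6 : ND WB (c + 4) (C * (n + 1) ^ 3) (C * (n + 1)) G 6 [] (.imp (.zero 0) (Rr Y n)) :=
    ND.impI (Δ := []) h5 w2
  have h7 : ND WB (c + 4) (C * (n + 1) ^ 3) (C * (n + 1)) G 7 []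
      (.all 0 (.imp (.zero 0) (Rr Y n))) :=
    h6.allI (fun g hg => absurd hg List.not_mem_nil) w3
  rw [inst_Rr]
  exact h7.up hN

end Pool.Agent.J6H77.BC
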