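import Pool.Agent.J6H49.BC.Stm3
import Pool.Agent.J6H40.BC.Fix
import Pool.Agent.J6H48.BC.B3

/-!
# The theory is true in an expansion of the standard model
-/

set_option autoImplicit false

namespace Pool.Agent.J6H77.BC

open Pool.Agent.TH672 (Fm Str upd varStr num digits LogK ReplK Sw Pv upd_self upd_same upd_ne)
open Pool.Agent.TH636.BC (Fml Step IsProof str strs Proves code blk inst robinson Arith PrRel
  Numerates con conAt Cx lt col Ef Cf TE hd bs tl appn St Ok Agr Eqs Erel Crel AddS MulS SuccS Vlt)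
open Pool.Agent.TH197.J1545 (code_inj sat_proves)
open Pool.Agent.TH838.J1549 (Q exists_Q sat_inst free_inst)
open Pool.Agent.J6H49.BC

/-- the expansion of the standard model -/
abbrev NN : Str ℕ := expansion stdR

/-- the standard model as a structure of Robinson arithmetic with functions -/
def qN : Q NN where
  o := (0 : ℕ)
  s := fun x : ℕ => x + 1
  a := fun x y : ℕ => x + y
  m := fun x y : ℕ => x * y
  zero_iff := fun _ => Iff.rfl
  succ_iff := fun _ _ => Iff.rfl
  add_iff := fun _ _ _ => Iff.rfl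
  mul_iff := fun _ _ _ => Iff.rfl
  s_ne := fun x => Nat.succ_ne_zero x
  s_inj := fun x y h => Nat.succ.inj h
  cases := fun x => by
    have h : ∀ x : ℕ, x = 0 ∨ ∃ y, x = y + 1 := fun x => by
      cases x with
      | zero => exact .inl rfl
      | succ n => exact .inr ⟨n, rfl⟩
    exact h x
  a_o := fun x => Nat.add_zero x
  a_s := fun x y => (Nat.add_assoc x y 1).symm
  m_o := fun x => Nat.mul_zero x
  m_s := fun x y => Nat.mul_succ x y

theorem qN_nm (n : ℕ) : qN.nm n = n := by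
  induction n with
  | zero => rfl
  | succ n ih =>
    change qN.nm n + 1 = n + 1
    rw [ih]

theorem sat_instN {φ : Fml} {x : ℕ} (hx : 2 ≤ x) (h0 : ¬ φ.Free 0) (h1 : ¬ φ.Free 1)
    (n : ℕ) (v : ℕ → ℕ) : Fm.Sat NN (inst x n φ) v ↔ Fm.Sat NN φ (upd v x n) := by
  rw [sat_inst qN hx h0 h1, qN_nm]

theorem sat_appnN (σ : List Bool) {ψ : Fml} (h0 : ¬ ψ.Free 0) (h1 : ¬ ψ.Free 1) (v : ℕ → ℕ) :
    Fm.Sat NN (appn σ ψ) v ↔ Fm.Sat NN ψ (upd (upd (upd (upd v 21 (2 ^ σ.length)) 23
      (num σ)) 25 (2 ^ σ.length * v 17)) 27 (2 ^ σ.length * v 17 + num σ)) := by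
  rw [J6H40.BC.sat_appn qN σ h0 h1 v (v 17) (qN_nm _).symm, qN_nm, qN_nm, qN_nm, qN_nm]

theorem robN : ∀ φ ∈ robinson, ∀ v : ℕ → ℕ, Fm.Sat NN φ v := by
  intro φ hφ v
  simp only [robinson, List.mem_cons, List.not_mem_nil, or_false] at hφ
  rcases hφ with rfl | rfl | rfl | rfl | rfl | rfl | rfl | rfl | rfl | rfl | rfl | rfl | rfl | rfl | rfl
  · rw [Fm.sat_ex]
    exact ⟨0, rfl⟩
  · intro (a : ℕ) (b : ℕ) h1 h2
    exact (show a = 0 from h1).trans (show b = 0 from h2).symm
  · intro (a : ℕ)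
    rw [Fm.sat_ex]
    exact ⟨a + 1, rfl⟩
  · intro (a : ℕ) (b : ℕ) (c : ℕ) h1 h2
    exact (show b = a + 1 from h1).trans (show c = a + 1 from h2).symm
  · intro (a : ℕ) (b : ℕ)
    rw [Fm.sat_ex]
    exact ⟨a + b, rfl⟩
  · intro (a : ℕ) (b : ℕ) (c : ℕ) (d : ℕ) h1 h2
    exact (show c = a + b from h1).trans (show d = a + b from h2).symm
  · intro (a : ℕ) (b : ℕ)
    rw [Fm.sat_ex]
    exact ⟨a * b, rfl⟩
  · intro (a : ℕ) (b : ℕ) (c : ℕ) (d : ℕ) h1 h2
    exact (show c = a * b from h1).trans (show d = a * b from h2).symm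
  · intro (a : ℕ) (b : ℕ) h1 h2
    exact absurd ((show b = a + 1 from h1).symm.trans (show b = 0 from h2)) (Nat.succ_ne_zero a)
  · intro (a : ℕ) (b : ℕ) (c : ℕ) h1 h2
    exact Nat.succ.inj ((show c = a + 1 from h1).symm.trans (show c = b + 1 from h2))
  · intro (a : ℕ)
    rw [Fm.sat_or, Fm.sat_ex]
    have h : ∀ a : ℕ, a = 0 ∨ ∃ y, a = y + 1 := fun a => by
      cases a with
      | zero => exact .inl rfl
      | succ n => exact .inr ⟨n, rfl⟩
    exact h a
  · intro (a : ℕ) (b : ℕ) h1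
    have h1' : b = 0 := h1
    change a = a + b
    omega
  · intro (a : ℕ) (b : ℕ) (c : ℕ) (d : ℕ) (e : ℕ) h1 h2 h3
    have h1' : c = b + 1 := h1
    have h2' : d = a + b := h2
    have h3' : e = d + 1 := h3
    change e = a + c
    omega
  · intro (a : ℕ) (b : ℕ) h1
    have h1' : b = 0 := h1
    change b = a * b
    rw [h1', Nat.mul_zero]
  · intro (a : ℕ) (b : ℕ) (c : ℕ) (d : ℕ) (e : ℕ) h1 h2 h3
    have h1' : c = b + 1 := h1
    have h2' : d = a * b := h2
    have h3' : e = d + a := h3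
    change e = a * c
    rw [h1', h3', h2']
    ring

theorem u0N : ∀ φ ∈ U0, ∀ v : ℕ → ℕ, Fm.Sat NN φ v := by
  intro φ hφ v
  simp only [U0, List.mem_cons, List.not_mem_nil, or_false] at hφ
  rcases hφ with rfl | rfl | rfl | rfl | rfl | rfl
  · intro (a : ℕ)
    rw [Fm.sat_ex]
    refine ⟨a + 1, ?_⟩
    change a < a + 1
    omega
  · intro (a : ℕ) (b : ℕ)
    rw [Fm.sat_ex]
    refine ⟨max a b, ?_⟩
    intro (c : ℕ)
    rw [Fm.sat_imp, Fm.sat_and]
    intro h
    have h' : max a b < c := h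
    refine ⟨?_, ?_⟩
    · change a < c
      omega
    · change b < c
      omega
  · intro (a : ℕ) (b : ℕ) h
    rw [Fm.sat_ex]
    refine ⟨b, ?_⟩
    intro (c : ℕ) h1
    rw [Fm.sat_ex]
    refine ⟨b, ?_⟩
    have h1' : b < c := h1
    change b < c ∧ b = b
    exact ⟨h1', rfl⟩
  · intro (a : ℕ) (b : ℕ) (c : ℕ) (d : ℕ) h1 h2 h3
    have h1' : a < b ∧ d = a := h1
    have h3' : b < c ∧ d = b := h3
    change False
    omega
  · intro (a : ℕ) (b : ℕ) h1 h2
    have h1' : a = 0 := h1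
    have h2' : b < a := h2
    change False
    omega
  · intro (a : ℕ) (b : ℕ) (c : ℕ) h1 h2
    rw [Fm.sat_or]
    have h1' : b = a + 1 := h1
    have h2' : c < b := h2
    change c < a ∨ c = a
    omega

theorem teN : ∀ φ ∈ TE, ∀ v : ℕ → ℕ, Fm.Sat NN φ v := by
  intro φ hφ v
  simp only [TE, List.mem_cons, List.not_mem_nil, or_false] at hφ
  rcases hφ with rfl | rfl | rfl | rfl | rfl
  · intro (a : ℕ) ha
    rw [sat_instN (by norm_num) (by simp [Ef, Fm.Free]) (by simp [Ef, Fm.Free])]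
    have ha' : a = 0 := ha
    change Erel a (num hd)
    rw [ha']
    exact erel_zero
  · intro (a : ℕ) (b : ℕ) hab (c : ℕ) hc
    rw [sat_appnN _ (by simp [Ef, Fm.Free]) (by simp [Ef, Fm.Free])]
    have hab' : Erel a b := hab
    have hc' : c = a + 1 := hc
    change Erel c (2 ^ bs.length * b + num bs)
    rw [hc']
    exact erel_succ hab'
  · intro (a : ℕ) (b : ℕ) hab (c : ℕ) hc
    rw [sat_appnN _ (by simp [Cf, Fm.Free]) (by simp [Cf, Fm.Free])]
    have hab' : Erel a b := hab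
    have hc' : c = 0 := hc
    change Crel a c (2 ^ tl.length * b + num tl)
    rw [hc']
    exact crel_zero hab'
  · intro (a : ℕ) (b : ℕ) (c : ℕ) habc (d : ℕ) hd (e : ℕ) he (f : ℕ) hf (g : ℕ) hg
    have h1 : Crel a b c := habc
    have h2 : d = b + b := hd
    have h3 : e = d + 1 := he
    have h4 : f = c + c := hf
    have h5 : g = f + 1 := hg
    change Crel a e g
    rw [h5, h4, h3, h2]
    exact crel_odd h1
  · intro (a : ℕ) (b : ℕ) (c : ℕ) habc (d : ℕ) hd (e : ℕ) he (e' : ℕ) he' (f : ℕ) hf (g : ℕ) hg (g' : ℕ) hg'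
    have h1 : Crel a b c := habc
    have h2 : d = b + b := hd
    have h3 : e = d + 1 := he
    have h3' : e' = e + 1 := he'
    have h4 : f = c + c := hf
    have h5 : g = f + 1 := hg
    have h5' : g' = g + 1 := hg'
    change Crel a e' g'
    rw [h5', h5, h4, h3', h3, h2]
    exact crel_even h1

theorem satN_neg {P : Fml} (hP : Numerates P) {c y d : ℕ} (h : ¬ PrRel c y d) {v : ℕ → ℕ}
    (h2 : v 2 = c) (h3 : v 3 = y) : Fm.Sat NN (inst 4 d P.neg) v := by
  obtain ⟨k, hk⟩ := hP.neg c y d h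
  have hs := sat_proves (S := NN) robN hk v
  have hf : ∀ x, (P.neg).Free x → x = 2 ∨ x = 3 ∨ x = 4 := fun x hx => by
    simp only [Fm.neg, Fm.Free, or_false] at hx
    exact hP.free x hx
  have n0 : ¬ (inst 3 y (inst 4 d P.neg)).Free 0 := fun h => (free_inst h).1 rfl
  have n1 : ¬ (inst 3 y (inst 4 d P.neg)).Free 1 := fun h => by
    have := hf 1 (free_inst (free_inst h).2.2).2.2
    omega
  have m0 : ¬ (inst 4 d P.neg).Free 0 := fun h => (free_inst h).1 rfl
  have m1 : ¬ (inst 4 d P.neg).Free 1 := fun h => by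
    have := hf 1 (free_inst h).2.2
    omega
  rw [sat_instN (by omega) n0 n1, ← h2, upd_self, sat_instN (by omega) m0 m1,
    ← h3, upd_self] at hs
  exact hs

attribute [local irreducible] rn code in
theorem rsN (h : ConsT) {P : Fml} (hP : Numerates P) (v : ℕ → ℕ) : Fm.Sat NN (rs P) v := by
  have h0 : ∀ i < 2, ¬ (rf P).Free i := fun i hi h => by
    have := J6H40.BC.free_rf hP h
    omega
  unfold rs
  rw [sat_instN (by omega) (h0 0 (by omega)) (h0 1 (by omega))]
  unfold rf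
  rw [Fm.sat_all]
  intro w
  rw [Fm.sat_imp]
  intro hC
  rw [Fm.sat_all]
  intro y
  rw [Fm.sat_imp]
  intro _
  have hC' : Crel (rn P) (rn P) w := hC
  have hw : w = code (RA P) := by
    unfold Crel at hC'
    rw [hC', ← J6H40.BC.strs_RA]
    unfold code
    rfl
  refine satN_neg (c := code (RA P)) (y := y) hP ?_ ?_ ?_
  · rintro ⟨Γ, φ, e1, e2, e3⟩
    have e1' := code_inj e1
    have e2' := code_inj e2
    have e2'' : Fm.bot = φ := by simpa using e2'
    subst e1' e2''
    exact h P hP y e3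
  · rw [upd_ne _ _ (by decide), upd_same]
    exact hw
  · rw [upd_same]

attribute [local irreducible] rn code in
/-- MODULE N -/
theorem trueN (h : ConsT) : TrueN := by
  intro P hP φ hφ v
  rcases List.mem_cons.1 hφ with e | hφ
  · rw [e]
    exact rsN h hP v
  · rcases List.mem_append.1 hφ with hφ | hφ
    · rcases List.mem_append.1 hφ with hφ | hφ
      · exact robN φ hφ v
      · exact u0N φ hφ v
    · exact teN φ hφ v

/-- MODULE F -/
theorem freeT : FreeT := by
  intro P hP x hx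
  obtain ⟨h1, h2, h3⟩ := free_inst hx
  obtain ⟨h4, h5, h6⟩ := free_inst h3
  simp only [Fm.neg, Fm.Free, or_false] at h6
  have := hP.free x h6
  omega

end Pool.Agent.J6H77.BC
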