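import Pool.Agent.J6H77.BC.U0

/-!
# The last axiom is pseudo-true
-/

set_option autoImplicit false

namespace Pool.Agent.J6H77.BC

open Pool.Agent.TH672 (Fm Str upd varStr num digits LogK ReplK Sw Pv upd_self upd_same upd_ne)
open Pool.Agent.TH636.BC (Fml Step IsProof str strs Proves code blk inst robinson Arith PrRel
  Numerates con conAt Cx lt col Ef Cf TE hd bs tl appn St Ok Agr Eqs Erel Crel AddS MulS SuccS Vlt)
open Pool.Agent.TH197.J1545 (D DM Dop digits_num str_inst strs_cons code_inj sat_proves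
  sat_robinson)
open Pool.Agent.TH838.J1549 (Q exists_Q sat_inst free_inst)
open Pool.Agent.J6H49.BC

/-! ### numerals in the pseudo-model -/

theorem tru_blks {m : ℕ} {χ : Fml} (h0 : 0 < m) (h1 : 1 < m) : ∀ (k a : ℕ),
    (∀ t, Ok m t → t.v 0 = .inl (a + k) → Tru m χ t) →
    ∀ t, Ok m t → t.v 0 = .inl a → Tru m (blk^[k] χ) t := by
  intro k
  induction k with
  | zero => intro a h t ht ht0; exact h t ht ht0
  | succ k ih =>
    intro a h t ht ht0
    rw [Function.iterate_succ_apply']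
    intro u hu htu hsucc w hw huw heq
    have hu0 : u.v 0 = .inl a := by rw [← htu.1 0 h0 (by decide)]; exact ht0
    have hu1 : u.v 1 = .inl (a + 1) := by
      have hS : SuccS u 0 1 := hsucc
      unfold SuccS at hS
      rw [hu0] at hS
      exact hS
    have hE : Eqs w 0 1 := heq
    have hw0 : w.v 0 = .inl (a + 1) := by
      rw [hE.1, ← huw.1 1 h1 (by decide)]
      exact hu1
    exact ih (a + 1) (fun t ht h' => h t ht (by rw [h']; congr 1; omega)) w hw hw0

theorem tru_inst {m x n : ℕ} {ψ : Fml} (h0 : 0 < m) (h1 : 1 < m) (hx : 0 ≠ x)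
    (h : ∀ t, Ok m t → t.v x = .inl n → Tru m ψ t) : Tr1 m (inst x n ψ) := by
  intro s hs t ht hst hz
  have hz' : t.v 0 = .inl 0 := hz
  refine tru_blks h0 h1 n 0 ?_ t ht hz'
  intro u hu hu0 w hw huw he
  have hE : Eqs w x 0 := he
  refine h w hw ?_
  rw [hE.1, ← huw.1 0 h0 hx, hu0]
  congr 1
  omega

/-! ### variables of instances -/

theorem vlt_blks {m : ℕ} {χ : Fml} : ∀ k, Vlt m (blk^[k] χ) → Vlt m χ := by
  intro k
  induction k with
  | zero => intro h; exact h
  | succ k ih =>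
    intro h
    rw [Function.iterate_succ_apply'] at h
    exact ih h.2.2.2.2

theorem vlt_inst {m x n : ℕ} {φ : Fml} (h : Vlt m (inst x n φ)) : x < m ∧ Vlt m φ := by
  have h1 := vlt_blks n h.2.2
  exact ⟨h1.1, h1.2.2⟩

theorem lw_blks {χ : Fml} (h : Lw χ) : ∀ k, Lw (blk^[k] χ) := by
  intro k
  induction k with
  | zero => exact h
  | succ k ih =>
    rw [Function.iterate_succ_apply']
    exact ⟨trivial, trivial, ih⟩

theorem lw_inst {x n : ℕ} {φ : Fml} (h : Lw φ) : Lw (inst x n φ) :=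
  ⟨trivial, lw_blks (χ := .all x (.imp (.eq x 0) φ)) ⟨trivial, h⟩ n⟩

theorem lw_arith : ∀ {φ : Fml}, Arith φ → Lw φ := by
  intro φ
  induction φ with
  | bot => intro _; trivial
  | eq x y => intro _; trivial
  | zero x => intro _; trivial
  | succ x y => intro _; trivial
  | add x y z => intro _; trivial
  | mul x y z => intro _; trivial
  | op i a b c d => intro h; exact h.elim
  | imp φ ψ ih ih' => intro h; exact ⟨ih h.1, ih' h.2⟩
  | all x φ ih => intro h; exact ih h

/-! ### the self-reference -/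

theorem strs_RA (P : Fml) : strs (RA P) =
    hd ++ (List.replicate (rn P) bs).flatten ++ tl ++ digits (rn P) := by
  have e : digits (rn P) = strs (rf P :: WB) := digits_num _
  rw [e]
  unfold RA rs
  rw [strs_cons, strs_cons, str_inst]
  simp [List.append_assoc]

theorem num_strs (Γ : List Fml) : num (strs Γ) = code Γ := rfl

/-! ### numerals in `D` -/

theorem nm_D (q : Q D) : ∀ n : ℕ, q.nm n = (.inl n : DM) := by
  intro n
  induction n with
  | zero => exact ((q.zero_iff (.inl 0)).1 rfl).symm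
  | succ n ih =>
    have h := (q.succ_iff (.inl n : DM) (.inl (n + 1))).1 rfl
    have e : q.nm (n + 1) = q.s (q.nm n) := rfl
    rw [e, ih]
    exact h.symm

theorem sat_neg_P {P : Fml} (hP : Numerates P) {c y d : ℕ} (h : ¬ PrRel c y d) {v : ℕ → DM}
    (h2 : v 2 = .inl c) (h3 : v 3 = .inl y) : Fm.Sat D (inst 4 d P.neg) v := by
  obtain ⟨k, hk⟩ := hP.neg c y d h
  have hs := sat_proves (S := D) sat_robinson hk v
  obtain ⟨q⟩ := exists_Q (S := D) v (fun ψ hψ => sat_robinson ψ hψ v)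
  have hf : ∀ x, (P.neg).Free x → x = 2 ∨ x = 3 ∨ x = 4 := fun x hx => by
    simp only [Fm.neg, Fm.Free, or_false] at hx
    exact hP.free x hx
  have n0 : ¬ (inst 3 y (inst 4 d P.neg)).Free 0 := fun h => (free_inst h).1 rfl
  have n1 : ¬ (inst 3 y (inst 4 d P.neg)).Free 1 := fun h => by
    have := hf 1 (free_inst (free_inst h).2.2).2.2
    omega
  have m0 : ¬ (inst 4 d P.neg).Free 0 := fun h => (free_inst h).1 rfl
  have m1 : ¬ (inst 4 d P.neg).Free 1 := fun h => by
    have := hf 1 (free_inst h).2.2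
    omega
  rw [sat_inst q (by omega) n0 n1, nm_D q, ← h2, upd_self, sat_inst q (by omega) m0 m1, nm_D q,
    ← h3, upd_self] at hs
  exact hs

attribute [local irreducible] rn code in
theorem rsT (h : TransferT) (h2 : ExRealzT) : RsT := by
  intro P hP m hm hv
  have hv1 : 29 < m ∧ Vlt m (rf P) := vlt_inst (m := m) (x := 29) (n := rn P) (φ := rf P) hv
  obtain ⟨h29, hvf⟩ := hv1
  have h0m : 0 < m := by omega
  have h1m : 1 < m := by omega
  unfold rs
  refine tru_inst h0m h1m (by decide) ?_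
  intro t ht ht29 u hu htu hC
  have h2m : 2 < m := by omega
  have h3m : 3 < m := by omega
  have hX : Vlt m (.imp XX (inst 4 (code [Fm.bot]) P.neg)) := hvf.2.2.2
  have h33 : 33 < m := hX.1.1.1
  have h35 : 35 < m := hX.1.1.2.1
  have h37 : 37 < m := hX.1.1.2.2.1
  have hu29 : u.v 29 = .inl (rn P) := by
    rw [← htu.1 29 h29 (by decide)]; exact ht29
  obtain ⟨p, q, r, hp, hq, hr, hcr⟩ : ∃ p q r, u.v 29 = .inl p ∧ u.v 29 = .inl q ∧
      u.v 2 = .inl r ∧ Crel p q r := hC
  rw [hu29] at hp hq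
  have hp' := Sum.inl.inj hp
  have hq' := Sum.inl.inj hq
  subst hp' hq'
  have hr2 : u.v 2 = .inl (code (RA P)) := by
    rw [hr]
    congr 1
    unfold Crel at hcr
    rw [hcr, ← strs_RA, num_strs]
  intro w hw huw hXX
  have hw2 : w.v 2 = .inl (code (RA P)) := by
    rw [← huw.1 2 h2m (by decide)]; exact hr2
  -- the value of `3`
  have h3v : ∃ y, w.v 3 = .inl y ∧ y < m := by
    by_contra hcon
    refine hXX ?_
    intro a _ hwa b _ hab c hc hbc hcol
    have hc3 : c.v 3 = w.v 3 := by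
      rw [← hbc.1 3 h3m (by decide), ← hab.1 3 h3m (by decide), ← hwa.1 3 h3m (by decide)]
    obtain ⟨δ, e1, e2⟩ : ∃ δ, c.v 37 = .inl δ ∧ c.c 33 35 = δ + 1 := hcol
    refine ⟨δ, e1, fun y hy => ?_⟩
    by_contra hlt
    refine hcon ⟨y, by rw [← hc3]; exact hy, ?_⟩
    have := hc.le 33 h33 35 h35
    omega
  obtain ⟨y, hy, hym⟩ := h3v
  have hnp : ¬ PrRel (code (RA P)) y (code [Fm.bot]) := by
    rintro ⟨Γ, φ, e1, e2, e3⟩
    have e1' := code_inj e1
    have e2' := code_inj e2
    have e2'' : Fm.bot = φ := by simpa using e2'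
    subst e1' e2''
    exact hm y hym e3
  obtain ⟨v, hvr⟩ := h2 m w hw
  have hvl : Vlt m (inst 4 (code [Fm.bot]) P.neg) := hX.2
  have hlw : Lw (inst 4 (code [Fm.bot]) P.neg) := lw_inst ⟨lw_arith hP.arith, trivial⟩
  rw [h m _ hvl hlw w v hw hvr]
  exact sat_neg_P hP hnp ((hvr.num 2 h2m _).1 hw2) ((hvr.num 3 h3m _).1 hy)

end Pool.Agent.J6H77.BC
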