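import Pool.Agent.J6H49.BC.Stm2

/-!
# The formulas `Rr Y i`
-/

set_option autoImplicit false

namespace Pool.Agent.J6H77.BC

open Pool.Agent.TH672 (Fm LogK)
open Pool.Agent.TH636.BC (Fml blk inst lt col Cx)
open Pool.Agent.J6H49.BC

theorem Rr_zero (Y : Fml) : Rr Y 0 = .all 3 (.imp (.eq 3 0) Y) := rfl

theorem Rr_succ (Y : Fml) (i : ℕ) :
    Rr Y (i + 1) = .all 1 (.imp (.succ 0 1) (.all 0 (.imp (.eq 0 1) (Rr Y i)))) := by
  unfold Rr
  rw [Function.iterate_succ_apply']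
  rfl

theorem inst_Rr (Y : Fml) (n : ℕ) : inst 3 n Y = .all 0 (.imp (.zero 0) (Rr Y n)) := rfl

theorem cx_Rr {Y : Fml} {c : ℕ} (h : BB c Y) : ∀ i : ℕ, Cx false (c + 1) (Rr Y i) := by
  intro i
  induction i with
  | zero => rw [Rr_zero]; exact .all (.lift (((bb_eq c 3 0).imp h) true))
  | succ i ih =>
    rw [Rr_succ]
    exact .all (.imp (.succ _ _ _ _) (.all (.imp (.eq _ _ _ _) ih)))

theorem bb_Rr {Y : Fml} {c : ℕ} (h : BB c Y) (i : ℕ) : BB (c + 2) (Rr Y i) :=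
  fun _ => .lift (cx_Rr h i)

/-- the part of `Rr Y (i + 1)` after the quantifier for the variable `1` -/
theorem bb_Rr' {Y : Fml} {c : ℕ} (h : BB c Y) (i : ℕ) :
    BB (c + 2) (.all 0 (.imp (.eq 0 1) (Rr Y i))) :=
  fun _ => .lift (.all (.imp (.eq _ _ _ _) (cx_Rr h i)))

theorem sz_Rr (Y : Fml) (i : ℕ) : sz (Rr Y i) = 33 * i + sz Y + 21 := by
  induction i with
  | zero => rw [Rr_zero]; simp only [sz_all, sz_imp, sz_eq]; omega
  | succ i ih => rw [Rr_succ]; simp only [sz_all, sz_imp, sz_eq, sz_succ, ih]; omega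

theorem sz_Rr_le (Y : Fml) (i : ℕ) : sz (Rr Y i) ≤ sz Y + 40 * (i + 1) := by
  rw [sz_Rr]; omega

theorem free_Rr {Y : Fml} (h : ∀ x, Y.Free x → x = 3) : ∀ (i x : ℕ), (Rr Y i).Free x → x = 0 := by
  intro i
  induction i with
  | zero =>
    intro x hx
    rw [Rr_zero] at hx
    simp only [Fm.Free] at hx
    obtain ⟨h3, (h1 | h1) | h1⟩ := hx
    · exact absurd h1 h3
    · exact h1
    · exact absurd (h x h1) h3
  | succ i ih =>
    intro x hx
    rw [Rr_succ] at hx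
    simp only [Fm.Free] at hx
    obtain ⟨h1, (h2 | h2) | ⟨h0, h2⟩⟩ := hx
    · exact h2
    · exact absurd h2 h1
    · rcases h2 with (h2 | h2) | h2
      · exact h2
      · exact absurd h2 h1
      · exact ih x h2

/-- `y` is free for `x` in `Rr Y i` if `x ≠ 0` -/
theorem freeFor_of_not_free {x y : ℕ} : ∀ {φ : Fml}, ¬ φ.Free x → φ.FreeFor y x := by
  intro φ
  induction φ with
  | imp φ ψ ih ih' =>
    intro h
    simp only [Fm.Free, not_or] at h
    exact ⟨ih h.1, ih' h.2⟩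
  | all u φ ih =>
    intro h
    simp only [Fm.Free, not_and] at h
    by_cases hu : u = x
    · exact .inl hu
    · exact .inr (.inl (h (Ne.symm hu)))
  | _ => intro _; trivial

end Pool.Agent.J6H77.BC
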