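import Pool.Agent.J6H49.BC.Stm

/-!
# The axioms `U0` are pseudo-true
-/

set_option autoImplicit false

namespace Pool.Agent.J6H77.BC

open Pool.Agent.TH672 (Fm Str upd varStr num digits LogK ReplK Sw Pv)
open Pool.Agent.TH636.BC (Fml Step IsProof str strs Proves code blk inst robinson Arith PrRel
  Numerates con conAt Cx lt col Ef Cf TE hd bs tl appn St Ok Agr Eqs Erel Crel AddS MulS SuccS Vlt)
open Pool.Agent.TH197.J1545 (D DM Dop)
open Pool.Agent.J6H49.BC

section basic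

variable {m : ℕ} {s t : St}

theorem tru_bot : ¬ Tru m .bot s := fun h => h

theorem tru_neg {φ : Fml} : Tru m φ.neg s ↔ ¬ Tru m φ s := Iff.rfl

theorem tru_imp {φ ψ : Fml} : Tru m (φ.imp ψ) s ↔ (Tru m φ s → Tru m ψ s) := Iff.rfl

theorem tru_all {x : ℕ} {φ : Fml} :
    Tru m (.all x φ) s ↔ ∀ t, Ok m t → Agr m x s t → Tru m φ t := Iff.rfl

theorem tru_op {i a b c d : ℕ} : Tru m (.op i a b c d) s ↔ OpP s i a b c := Iff.rfl

theorem tru_and {φ ψ : Fml} : Tru m (φ.and ψ) s ↔ Tru m φ s ∧ Tru m ψ s := by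
  constructor
  · intro h
    by_contra h'
    exact h fun h1 h2 => h' ⟨h1, h2⟩
  · intro h h'
    exact h' h.1 h.2

theorem tru_or {φ ψ : Fml} : Tru m (φ.or ψ) s ↔ Tru m φ s ∨ Tru m ψ s := by
  constructor
  · intro h
    by_cases h1 : Tru m φ s
    · exact .inl h1
    · exact .inr (h h1)
  · rintro (h | h) h'
    · exact absurd h h'
    · exact h

theorem tru_ex {x : ℕ} {φ : Fml} :
    Tru m (.ex x φ) s ↔ ∃ t, Ok m t ∧ Agr m x s t ∧ Tru m φ t := by
  constructor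
  · intro h
    by_contra h'
    exact h fun t h1 h2 h3 => h' ⟨t, h1, h2, h3⟩
  · rintro ⟨t, h1, h2, h3⟩ h
    exact h t h1 h2 h3

/-- setting a variable to a value, without conditions on the colours -/
theorem ext0 (h : ExtT) (hs : Ok m s) {x : ℕ} (hx : x < m) (a : ℕ ⊕ ℕ) :
    ∃ t, Ok m t ∧ Agr m x s t ∧ t.v x = a := by
  obtain ⟨t, h1, h2, h3, -⟩ := h m s x (fun _ => False) a (fun _ => 0) hs hx
    (fun _ h => h.elim) (fun _ h => h.elim) (fun _ h => h.elim) (fun _ h => h.elim)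
    (fun _ _ h => h.elim) (fun _ _ h => h.elim) (fun _ _ h => h.elim)
  exact ⟨t, h1, h2, h3⟩

theorem opP1 {a b c : ℕ} :
    OpP s 1 a b c ↔ ∃ p, s.v a = .inl p ∧ ∀ q, s.v b = .inl q → p < q := Iff.rfl
theorem opP2 {a b c : ℕ} : OpP s 2 a b c ↔ ∃ h, s.v b = .inr h ∧ rk (s.v a) < h := Iff.rfl
theorem opP3 {a b c : ℕ} : OpP s 3 a b c ↔ ∃ δ, s.v c = .inl δ ∧ s.c a b = δ + 1 := Iff.rfl

end basic

theorem u0 (h : ExtT) : U0T := by
  intro m φ hφ hv s hs
  simp only [U0, List.mem_cons, List.not_mem_nil, or_false] at hφ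
  rcases hφ with rfl | rfl | rfl | rfl | rfl | rfl
  · have h15 : 15 < m := hv.1
    have h17 : 17 < m := hv.2.1.1
    intro t ht _
    rw [tru_ex]
    obtain ⟨u, h1, h2, h3⟩ := ext0 h ht h17 (.inr (rk (t.v 15) + 1))
    refine ⟨u, h1, h2, ?_⟩
    rw [hi, tru_op, opP2]
    refine ⟨_, h3, ?_⟩
    rw [← h2.1 15 h15 (by decide)]
    exact Nat.lt_succ_self _
  · have h15 : 15 < m := hv.1
    have h17 : 17 < m := hv.2.1
    have h19 : 19 < m := hv.2.2.1.1
    intro t ht _ u hu _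
    rw [tru_ex]
    obtain ⟨w, h1, h2, h3⟩ := ext0 h hu h19 (.inl (max (rk (u.v 15)) (rk (u.v 17))))
    refine ⟨w, h1, h2, ?_⟩
    intro r hr hwr
    rw [tru_imp, tru_and, hi, hi, hi, tru_op, tru_op, tru_op, opP2, opP2, opP2]
    rintro ⟨k, hk1, hk2⟩
    rw [← hwr.1 19 h19 (by decide), h3] at hk2
    have hk3 : max (rk (u.v 15)) (rk (u.v 17)) < k := hk2
    rw [max_lt_iff] at hk3
    refine ⟨⟨k, hk1, ?_⟩, ⟨k, hk1, ?_⟩⟩
    · rw [← hwr.1 15 h15 (by decide), ← h2.1 15 h15 (by decide)]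
      exact hk3.1
    · rw [← hwr.1 17 h17 (by decide), ← h2.1 17 h17 (by decide)]
      exact hk3.2
  · have h15 : 15 < m := hv.1
    have h17 : 17 < m := hv.2.1
    have h19 : 19 < m := hv.2.2.2.1.1
    have h21 : 21 < m := hv.2.2.2.1.2.1.1
    have h23 : 23 < m := hv.2.2.2.1.2.1.2.2.1.1
    intro t ht _ u hu _
    rw [tru_imp, hi, tru_op, opP2]
    rintro ⟨k, hk1, hk2⟩
    rw [tru_ex]
    obtain ⟨w, h1, h2, h3⟩ := ext0 h hu h19 (.inl k)
    refine ⟨w, h1, h2, ?_⟩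
    intro r hr hwr
    rw [tru_imp, hi, tru_op, opP2]
    rintro ⟨l, hl1, hl2⟩
    rw [← hwr.1 19 h19 (by decide), h3] at hl2
    have hl3 : k < l := hl2
    have hr17 : r.v 17 = .inr k := by
      rw [← hwr.1 17 h17 (by decide), ← h2.1 17 h17 (by decide)]
      exact hk1
    have hc : r.c 17 21 ≠ 0 := by
      intro h0
      have := hr.val 17 h17 21 h21 (by rw [hr17]; rfl) (by rw [hl1]; rfl) h0
      rw [hr17, hl1] at this
      have := Sum.inr.inj this
      omega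
    obtain ⟨δ, hδ⟩ := Nat.exists_eq_succ_of_ne_zero hc
    rw [tru_ex]
    obtain ⟨z, hz1, hz2, hz3⟩ := ext0 h hr h23 (.inl δ)
    refine ⟨z, hz1, hz2, ?_⟩
    rw [col, tru_op, opP3]
    refine ⟨δ, hz3, ?_⟩
    rw [← hz2.2 17 h17 21 h21 (by decide) (by decide)]
    exact hδ
  · have h15 : 15 < m := hv.1
    have h17 : 17 < m := hv.2.1
    have h19 : 19 < m := hv.2.2.1
    intro t1 _ _ t2 _ _ t3 _ _ t hr _
    rw [tru_imp, tru_imp, tru_neg, col, col, col, tru_op, tru_op, tru_op, opP3, opP3, opP3]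
    rintro ⟨δ, e1, f1⟩ ⟨δ', e2, f2⟩ ⟨δ'', e3, f3⟩
    rw [e1] at e2 e3
    have e2' := Sum.inl.inj e2
    have e3' := Sum.inl.inj e3
    subst e2' e3'
    have := hr.tri 15 h15 17 h17 19 h19 (by rw [f1, f3]) (by rw [f2, f3])
    omega
  · intro t ht _ u hu _
    rw [tru_imp, tru_neg, lt, tru_op, opP1]
    rintro h0 ⟨p, -, h2⟩
    exact absurd (h2 0 h0) (by omega)
  · have h15 : 15 < m := hv.1
    have h17 : 17 < m := hv.2.1
    have h19 : 19 < m := hv.2.2.1
    intro t1 _ _ t2 _ _ t hr _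
    rw [tru_imp, tru_imp, tru_or, lt, lt, tru_op, tru_op, opP1, opP1]
    rintro hS ⟨p, hp, hq⟩
    have hS' : SuccS t 15 17 := hS
    unfold SuccS at hS'
    split at hS'
    · rename_i a ha
      have hpa := hq _ hS'
      rcases Nat.lt_succ_iff_lt_or_eq.1 hpa with h1 | h1
      · left
        refine ⟨p, hp, fun q hq' => ?_⟩
        rw [ha] at hq'
        have := Sum.inl.inj hq'
        omega
      · right
        refine ⟨?_, ?_⟩
        · rw [hp, ha, h1]
        · exact hr.norm 19 h19 15 h15 (.inl (by rw [hp]; rfl))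
    · rename_i a ha
      left
      refine ⟨p, hp, fun q hq' => ?_⟩
      rw [ha] at hq'
      cases hq'

end Pool.Agent.J6H77.BC
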